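import Mathlib
import Pool.Agent.Lib.MP_c95b3b_ag_AL.CJ

set_option autoImplicit false

namespace Pool.Agent.Results.MP_c95b3b_ag.ComplexLines

/-- Let `k` be any natural number, `a i, b i` (`i < k`) arbitrary nonzero complex numbers and `Y`
the subvariety `a i * x i + b i * y i = 1` (`i < k`) of `G_m^(2k)` over `ℂ`, a product of `k`
lines, `dim Y = k`. The points of `Y` lying in algebraic subgroups of dimension at most `k - 1`
(codimension at least `dim Y + 1`), i.e. those whose `2 k` coordinates satisfy multiplicative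
relations of rank at least `k + 1`, are not Zariski dense in `Y`: some nonzero polynomial in the
`k` coordinates `x i` of `Y` vanishes at all of them. -/
theorem result (k : ℕ) (a b : Fin k → ℂ) (ha : ∀ i, a i ≠ 0) (hb : ∀ i, b i ≠ 0) :
    ∃ F : MvPolynomial (Fin k) ℂ, F ≠ 0 ∧
      ∀ x y : Fin k → ℂ, (∀ i, x i ≠ 0 ∧ y i ≠ 0 ∧ a i * x i + b i * y i = 1) →
        (∃ Λ : Submodule ℤ (Fin k → ℤ × ℤ), k + 1 ≤ Module.finrank ℤ Λ ∧
          ∀ m ∈ Λ, ∏ i, x i ^ (m i).1 * y i ^ (m i).2 = 1) →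
        MvPolynomial.eval x F = 0 := by
  obtain ⟨F, hF, h⟩ := Pool.Agent.AL.all_linesC k a b ha hb
  exact ⟨F, hF, fun x y hxy hΛ => h x y ⟨hxy, hΛ⟩⟩

end Pool.Agent.Results.MP_c95b3b_ag.ComplexLines
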