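import Mathlib
import Pool.Agent.Lib.MP_c95b3b_ag_HF.FinalZ

set_option autoImplicit false

namespace Pool.Agent.Results.MP_c95b3b_ag.HypersurfacesOverCurves

open Pool.Agent.HF

/-- the polynomial `Q` in `t`, `s` has algebraic coefficients -/
def Alg (Q : MvPolynomial (Fin 2) ℂ) : Prop := ∀ i, IsAlgebraic ℚ (Q.coeff i)

/-- the points `p = (t, s)` of the curve `P = 0` at which all `f j`, `g j` are nonzero -/
def Pts {m : ℕ} (P : MvPolynomial (Fin 2) ℂ) (f g : Fin m → MvPolynomial (Fin 2) ℂ) :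
    Set (Fin 2 → ℂ) := {p | P.eval p = 0 ∧ ∀ j, (f j).eval p ≠ 0 ∧ (g j).eval p ≠ 0}

/-- the value of the rational function `x j = f j / g j` at `p` -/
noncomputable def xv {m : ℕ} (f g : Fin m → MvPolynomial (Fin 2) ℂ) (p : Fin 2 → ℂ)
    (j : Fin m) : ℂ := (f j).eval p / (g j).eval p

/-- the value `G_p(z)` of the polynomial `∑ k, γ k z^(b k)` over the point `p` -/
noncomputable def fib {n d : ℕ} (γ : Fin n → MvPolynomial (Fin 2) ℂ) (b : Fin n → Fin d → ℕ)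
    (p : Fin 2 → ℂ) (z : Fin d → ℂ) : ℂ := ∑ k, (γ k).eval p * ∏ i, z i ^ b k i

/-- The functions `x j` on the curve are multiplicatively independent modulo constants; for
independent `a`, `a'` in `ℤ^m` the equations `|x^a| = |x^a'| = 1` have finitely many solutions;
for independent `a`, `a'`, `a''` in `ℤ^m` and all real `α`, `β`, `δ` the equations `|x^a| = α`,
`|x^a'| = β`, `|x^a''| = δ` have finitely many solutions. -/
def NC {m : ℕ} (P : MvPolynomial (Fin 2) ℂ) (f g : Fin m → MvPolynomial (Fin 2) ℂ) : Prop :=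
  (∀ a : Fin m → ℤ, (∃ c : ℂ, ∀ p ∈ Pts P f g, ∏ j, xv f g p j ^ a j = c) → a = 0) ∧
  (∀ a a' : Fin m → ℤ, LinearIndependent ℤ ![a, a'] →
    {p | p ∈ Pts P f g ∧ ‖∏ j, xv f g p j ^ a j‖ = 1 ∧ ‖∏ j, xv f g p j ^ a' j‖ = 1}.Finite) ∧
  ∀ a a' a'' : Fin m → ℤ, LinearIndependent ℤ ![a, a', a''] → ∀ α β δ : ℝ,
    {p | p ∈ Pts P f g ∧ ‖∏ j, xv f g p j ^ a j‖ = α ∧ ‖∏ j, xv f g p j ^ a' j‖ = β ∧
      ‖∏ j, xv f g p j ^ a'' j‖ = δ}.Finite

/-- If the exponents are symmetric, `b k + b k' = κ`, then for all real `r ≠ 0` in `ℝ^m` and all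
real `μ` there are only finitely many points `p` with `∏ |x j (p)|^(r j) = 1` (and `γ k (p) ≠ 0`)
over which the hypersurface `G_p = 0` is stable under the reflection
`z i ↦ (∏ j, |x j (p)|^(μ i j)) / conj (z i)`. -/
def NoReflection {m n d : ℕ} (P : MvPolynomial (Fin 2) ℂ)
    (f g : Fin m → MvPolynomial (Fin 2) ℂ) (γ : Fin n → MvPolynomial (Fin 2) ℂ)
    (b : Fin n → Fin d → ℕ) : Prop :=
  ∀ κ : Fin d → ℕ, (∀ k, ∃ k', ∀ j, b k j + b k' j = κ j) →
    ∀ (r : Fin m → ℝ) (μ : Fin d → Fin m → ℝ), r ≠ 0 →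
      {p | p ∈ Pts P f g ∧ (∀ k, (γ k).eval p ≠ 0) ∧ ∏ j, ‖xv f g p j‖ ^ r j = 1 ∧
        ∀ z : Fin d → ℂ, (∀ i, z i ≠ 0) → fib γ b p z = 0 →
          fib γ b p (fun i => ((∏ j, ‖xv f g p j‖ ^ μ i j : ℝ) : ℂ) /
            (starRingEnd ℂ) (z i)) = 0}.Finite

/-- Let `C : P(t, s) = 0` be an irreducible plane curve over the algebraic numbers, of positive
degree in `s`, and let `x j = f j / g j` (`j < m`) be nonzero rational functions on `C` over the
algebraic numbers with `NC` (so that the curve `x(C)` in `G_m^m` lies in no translate of a proper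
subgroup), or let `m = 3`, `C` the line and `x j = t - c j`, `c j` distinct (then no condition is
assumed).
Let `G = ∑ k, γ k z^(b k)` be a polynomial in `z = (z 0, ..., z e)`, `e ≥ 1`, whose coefficients
`γ k` are nonzero functions on `C`, whose exponents `b k` are distinct and have differences
spanning `ℝ^(e + 1)`, and which is geometrically irreducible over the function field of `C`
(irreducible over every extension field `L`), and assume `NoReflection`.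
Let `Y` be the subvariety of `G_m^(e + 1 + m)` of dimension `e + 1` and codimension `m` given by
the points `(z, x(p))`, `p` in `C`, with `G_p(z) = 0`: a family of irreducible hypersurfaces of
`G_m^(e + 1)` over the curve `C`. The complex points of `Y` lying in algebraic subgroups of
codimension at least `dim Y + 1 = e + 2`, i.e. those whose coordinates satisfy multiplicative
relations of rank at least `e + 2`, are not Zariski dense in `Y`: some nonzero polynomial in the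
parameters `t`, `z 1`, ..., `z e` vanishes at all of them. -/
theorem result (m n e : ℕ) (he : 1 ≤ e) (P : MvPolynomial (Fin 2) ℂ)
    (f g : Fin m → MvPolynomial (Fin 2) ℂ) (γ : Fin n → MvPolynomial (Fin 2) ℂ)
    (b : Fin n → Fin (e + 1) → ℕ) (hP : Irreducible P) (h1 : P.degreeOf 1 ≠ 0)
    (hf : ∀ j, ¬ P ∣ f j) (hg : ∀ j, ¬ P ∣ g j) (hγ : ∀ k, ¬ P ∣ γ k)
    (hP' : Alg P) (hf' : ∀ j, Alg (f j)) (hg' : ∀ j, Alg (g j)) (hγ' : ∀ k, Alg (γ k))
    (hb : Function.Injective b)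
    (hspan : ∀ u : Fin (e + 1) → ℝ, (∀ k l, ∑ j, u j * ((b k j : ℝ) - b l j) = 0) → u = 0)
    (hG : ∀ (L : Type) [Field L] (φ : MvPolynomial (Fin 2) ℂ →+* L),
      (∀ Q, φ Q = 0 ↔ P ∣ Q) → Irreducible (∑ k, MvPolynomial.monomial
        (Finsupp.equivFunOnFinite.symm (b k)) (φ (γ k)) : MvPolynomial (Fin (e + 1)) L))
    (hsym : NoReflection P f g γ b)
    (hx : NC P f g ∨ (m = 3 ∧ P = MvPolynomial.X 1 ∧ ∃ c : Fin m → ℂ, Function.Injective c ∧
      ∀ j, f j = MvPolynomial.X 0 - MvPolynomial.C (c j) ∧ g j = 1)) :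
    ∃ F : MvPolynomial (Fin (e + 1)) ℂ, F ≠ 0 ∧
      ∀ p ∈ Pts P f g, ∀ z : Fin (e + 1) → ℂ, (∀ i, z i ≠ 0) → fib γ b p z = 0 →
        (∃ Λ : Submodule ℤ ((Fin (e + 1) → ℤ) × (Fin m → ℤ)), e + 2 ≤ Module.finrank ℤ Λ ∧
          ∀ r ∈ Λ, (∏ i, z i ^ r.1 i) * ∏ j, xv f g p j ^ r.2 j = 1) →
        F.eval (Fin.cons (p 0) (fun i => z i.succ) : Fin (e + 1) → ℂ) = 0 := by
  have hn : 0 < n := pos_of_span b hspan
  have hsym' : ∀ κ : Fin (e + 1) → ℕ, (∀ k, ∃ k', ∀ j, b k j + b k' j = κ j) →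
      ∀ (r : Fin m → ℝ) (μ : Fin (e + 1) → Fin m → ℝ), r ≠ 0 →
        {p : Fin 2 → ℂ | P.eval p = 0 ∧ (∀ j, (f j).eval p ≠ 0 ∧ (g j).eval p ≠ 0) ∧
          (∀ k, (γ k).eval p ≠ 0) ∧ ∏ j, ‖(f j).eval p / (g j).eval p‖ ^ r j = 1 ∧
          ∀ z : Fin (e + 1) → ℂ, (∀ i, z i ≠ 0) → ∑ k, (γ k).eval p * ∏ i, z i ^ b k i = 0 →
            ∑ k, (γ k).eval p * ∏ i, (((∏ j, ‖(f j).eval p / (g j).eval p‖ ^ μ i j : ℝ) : ℂ) /
              (starRingEnd ℂ) (z i)) ^ b k i = 0}.Finite := by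
    intro κ hκ r μ hr
    refine (hsym κ hκ r μ hr).subset ?_
    rintro p ⟨hp, hx, hk, h2, h3⟩
    exact ⟨⟨hp, hx⟩, hk, h2, h3⟩
  have key : ∃ F : MvPolynomial (Fin (e + 1)) ℂ, F ≠ 0 ∧
      ∀ (p : Fin 2 → ℂ) (z : Fin (e + 1) → ℂ), P.eval p = 0 →
        (∀ j, (f j).eval p ≠ 0 ∧ (g j).eval p ≠ 0) → (∀ j, z j ≠ 0) →
        ∑ k, (γ k).eval p * ∏ j, z j ^ b k j = 0 →
        (∃ Λ : Submodule ℤ ((Fin (e + 1) → ℤ) × (Fin m → ℤ)), e + 2 ≤ Module.finrank ℤ Λ ∧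
          ∀ r ∈ Λ, (∏ i, z i ^ r.1 i) *
            ∏ j, ((f j).eval p / (g j).eval p) ^ r.2 j = 1) →
        F.eval (Fin.cons (p 0) (fun j => z j.succ) : Fin (e + 1) → ℂ) = 0 := by
    rcases hx with ⟨hi, h2, h3⟩ | ⟨hm, hPX, c, hc, hxc⟩
    · have hi' : ∀ a : Fin m → ℤ, (∃ c : ℂ, ∀ p : Fin 2 → ℂ, P.eval p = 0 →
          (∀ j, (f j).eval p ≠ 0 ∧ (g j).eval p ≠ 0) →
          ∏ j, ((f j).eval p / (g j).eval p) ^ a j = c) → a = 0 := by
        rintro a ⟨c, hc⟩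
        exact hi a ⟨c, fun p hp => hc p hp.1 hp.2⟩
      refine hf_final m n e he P f g γ b hP h1 hf hg hγ hP' hf' hg' hγ' hb hn hspan hi'
        (nc_local m P f g hP h1 hf hg hi' (fun a a' ha => (h2 a a' ha).subset ?_)
          (fun a a' a'' ha α β δ => (h3 a a' a'' ha α β δ).subset ?_)) hG hsym'
      · rintro p ⟨hp, hx, h4⟩
        exact ⟨⟨hp, hx⟩, h4⟩
      · rintro p ⟨hp, hx, h4⟩
        exact ⟨⟨hp, hx⟩, h4⟩
    · subst hm
      obtain ⟨hi, h2⟩ := lines_ok P hPX f g c hc hxc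
      exact hf_final 3 n e he P f g γ b hP h1 hf hg hγ hP' hf' hg' hγ' hb hn hspan hi h2
        hG hsym'
  obtain ⟨F, hF, h⟩ := key
  exact ⟨F, hF, fun p hp z hz hG hΛ => h p z hp.1 hp.2 hz hG hΛ⟩

end Pool.Agent.Results.MP_c95b3b_ag.HypersurfacesOverCurves
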