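import Mathlib
import Pool.Agent.Lib.MP_c95b3b_ag_R.Final
import Pool.Agent.Lib.MP_c95b3b_ag_R.Trans

set_option autoImplicit false

/-!
Zilber's conjecture for a complex subvariety `Y` of the torus and for its images which are defined
over the algebraic numbers.

It follows that the conjecture holds for every `Y` such that no homomorphism onto a torus
`G_m^m` maps `Y` onto a dense subset of a variety `B` over the algebraic numbers with finite
stabiliser, `1 ≤ dim B ≤ m - 2` (and dense `U(B)`). Examples: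

* `Y = g Y₀`, `Y₀` any irreducible variety over the algebraic numbers, where the coordinates of `g`
  satisfy at most two independent multiplicative relations modulo the algebraic numbers: by the
  last part of `result` the `m ≥ 3` monomials `γ` are independent relations of this kind;
* `Y` on which some `n - 1` of the coordinate functions are algebraically independent over the
  rational numbers: then `n - 1 ≤ trdeg ℚ(Y) ≤ trdeg ℚ(B) + (n - m)`, because the fibres of the
  homomorphism are cosets of a torus of dimension `n - m`, and `trdeg ℚ(B) = dim B` since `B` is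
  defined over the algebraic numbers, so `dim B ≥ m - 1`, and `B` cannot exist.
-/

namespace Pool.Agent.Results.MP_c95b3b_ag.QbarImage

open MvPolynomial Pool.Agent.CITR

/-- Let `Y = V(P)` be an irreducible subvariety of `G_m^n` over the complex numbers such that
`U(Y)` is Zariski dense in `Y` and `Y` lies in no proper algebraic subgroup. Then there is a
homomorphism `γ` of `G_m^n` onto some `G_m^m` such that the Zariski closure `B = V(Q)` of the image
of `Y` is defined over the algebraic numbers, the algebraic points of `U(B)` are Zariski dense in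
`B`, `B` lies in no proper algebraic subgroup of `G_m^m`, `1 ≤ dim B ≤ m - 2`, and no one-parameter
subgroup `t ↦ (t ^ v l)_l`, `v ≠ 0`, maps `B` to itself (the stabiliser of `B` is finite).
Moreover, if `Y = g Y₀` with `Y₀ = V(P₀)` defined over the algebraic numbers and `g` a point of
`G_m^n`, then `γ(g)` has algebraic coordinates. -/
theorem result (n : ℕ) (P : Ideal (MvPolynomial (Fin n) ℂ)) (hP : P.IsPrime)
    (hX : (∏ i : Fin n, (X i : MvPolynomial (Fin n) ℂ)) ∉ P)
    (hU : ∀ f : MvPolynomial (Fin n) ℂ, (∀ x, Unlikely n P x → eval x f = 0) →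
      ∀ x, OnTorus n P x → eval x f = 0)
    (hne : ¬ InSubgroup n P) :
    ∃ (m : ℕ) (γ : Fin m → Fin n → ℤ) (Q : Ideal (MvPolynomial (Fin m) ℂ)),
      (LinearIndependent ℤ γ ∧ Q.IsPrime ∧ (∏ l : Fin m, (X l : MvPolynomial (Fin m) ℂ)) ∉ Q ∧
      (∀ f, f ∈ Q ↔ ∀ x, OnTorus n P x → eval (fun l => ∏ i, x i ^ γ l i) f = 0) ∧
      Q = Ideal.span {g | g ∈ Q ∧ ∀ s, IsAlgebraic ℚ (coeff s g)} ∧
      (∀ f, (∀ y, Unlikely m Q y → (∀ l, IsAlgebraic ℚ (y l)) → eval y f = 0) →
        ∀ y, OnTorus m Q y → eval y f = 0) ∧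
      ¬ InSubgroup m Q ∧
      1 ≤ ringKrullDim (MvPolynomial (Fin m) ℂ ⧸ Q) ∧
      ringKrullDim (MvPolynomial (Fin m) ℂ ⧸ Q) + 2 ≤ (m : WithBot ℕ∞)) ∧
      (∀ v : Fin m → ℤ, v ≠ 0 → ∃ y, OnTorus m Q y ∧ ∃ t : ℂ, t ≠ 0 ∧
        ¬ OnTorus m Q (fun l => t ^ v l * y l)) ∧
      ∀ (P₀ : Ideal (MvPolynomial (Fin n) ℂ)) (g : Fin n → ℂ), P₀.IsPrime →
        (∏ i : Fin n, (X i : MvPolynomial (Fin n) ℂ)) ∉ P₀ →
        P₀ = Ideal.span {f | f ∈ P₀ ∧ ∀ s, IsAlgebraic ℚ (coeff s f)} → (∀ i, g i ≠ 0) →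
        (∀ f, f ∈ P ↔ ∀ x, OnTorus n P₀ x → eval (fun i => g i * x i) f = 0) →
        ∀ l, IsAlgebraic ℚ (∏ i, g i ^ γ l i) := by
  obtain ⟨m, γ, Q, hI, hfin⟩ := result_stab n P hP hX hU hne
  refine ⟨m, γ, Q, hI, hfin, fun P₀ g hP₀ hX₀ hQ₀ hg0 hPg => ?_⟩
  exact translates n P₀ hP₀ hX₀ hQ₀ g hg0 P hPg hI hfin

end Pool.Agent.Results.MP_c95b3b_ag.QbarImage
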