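import Mathlib
import Pool.Agent.Lib.MP_c95b3b_ag_h8.UnitF

set_option autoImplicit false

namespace Pool.Agent.Results.MP_c95b3b_ag.Universality

open MvPolynomial Module

/-- Zilber's conjecture for the single subvariety `Y = V(P)` of the torus `G_m^n`: if the points of
`Y` lying in algebraic subgroups `H` with `dim Y + dim H ≤ n - 1` are Zariski dense in `Y`, then
some nontrivial character `x^a` is identically `1` on `Y`. -/
def ZilberProp (n : ℕ) (P : Ideal (MvPolynomial (Fin n) ℂ)) : Prop :=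
  (∀ f : MvPolynomial (Fin n) ℂ,
    (∀ x : Fin n → ℂ, (∀ i, x i ≠ 0) → (∀ g ∈ P, MvPolynomial.eval x g = 0) →
      (∃ Λ : Submodule ℤ (Fin n → ℤ),
        ringKrullDim (MvPolynomial (Fin n) ℂ ⧸ P)
            + ((n - Module.finrank ℤ Λ : ℕ) : WithBot ℕ∞) + 1 ≤ (n : WithBot ℕ∞) ∧
        ∀ a ∈ Λ, ∏ i : Fin n, x i ^ a i = 1) →
      MvPolynomial.eval x f = 0) →
    ∀ x : Fin n → ℂ, (∀ i, x i ≠ 0) → (∀ g ∈ P, MvPolynomial.eval x g = 0) →
      MvPolynomial.eval x f = 0) →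
  ∃ a : Fin n → ℤ, a ≠ 0 ∧
    ∀ x : Fin n → ℂ, (∀ i, x i ≠ 0) → (∀ g ∈ P, MvPolynomial.eval x g = 0) →
      ∏ i : Fin n, x i ^ a i = 1

/-- `u` is a `k`-tuple of elements of `T`, all different from `0` and `1`, such that the `2k`
numbers `u_i, 1 - u_i` satisfy multiplicative relations of rank at least `k + 1`, i.e. generate a
multiplicative group of rank less than `k`. -/
def SpecialTuple (T : Set ℂ) (k : ℕ) (u : Fin k → ℂ) : Prop :=
  (∀ i, u i ∈ T) ∧ (∀ i, u i ≠ 0 ∧ u i ≠ 1) ∧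
    ∃ Λ : Submodule ℤ (Fin k ⊕ Fin k → ℤ), k + 1 ≤ finrank ℤ Λ ∧
      ∀ a ∈ Λ, ∏ i, (u i ^ a (Sum.inl i) * (1 - u i) ^ a (Sum.inr i)) = 1

/-- The irreducible subvariety `V = V(Q)` of `(ℂ ∖ {0,1})^k` is atypical: the `2k` functions
`u_i, 1 - u_i` on `V` satisfy multiplicative relations of rank at least `k + 1 - dim V`. -/
def AtypicalFamily (k : ℕ) (Q : Ideal (MvPolynomial (Fin k) ℂ)) : Prop :=
  Q.IsPrime ∧ ∏ i : Fin k, ((X i : MvPolynomial (Fin k) ℂ) * (1 - X i)) ∉ Q ∧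
    ∃ Λ : Submodule ℤ (Fin k ⊕ Fin k → ℤ),
      ((k + 1 : ℕ) : WithBot ℕ∞) ≤ ringKrullDim (MvPolynomial (Fin k) ℂ ⧸ Q) +
        (finrank ℤ Λ : WithBot ℕ∞) ∧
      ∀ u : Fin k → ℂ, (∀ i, u i ≠ 0 ∧ u i ≠ 1) → (∀ g ∈ Q, eval u g = 0) →
        ∀ a ∈ Λ, ∏ i, (u i ^ a (Sum.inl i) * (1 - u i) ^ a (Sum.inr i)) = 1

/-- Finitely many atypical families of `k`-tuples contain all special `k`-tuples of elements of
`T`. -/
def UnitFiniteness (T : Set ℂ) (k : ℕ) : Prop :=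
  ∃ S : Finset (Ideal (MvPolynomial (Fin k) ℂ)), (∀ Q ∈ S, AtypicalFamily k Q) ∧
    ∀ u : Fin k → ℂ, SpecialTuple T k u → ∃ Q ∈ S, ∀ g ∈ Q, eval u g = 0

/-- Zilber's conjecture on intersections with tori, for all subvarieties of all tori over the
complex numbers, is equivalent to the finiteness, for every `k`, of the atypical families of
`k`-tuples of solutions of the unit equation `u + v = 1`, and it is enough to consider tuples of
algebraic numbers. -/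
theorem result (T : Set ℂ) (hT : ∀ x : ℂ, IsAlgebraic ℚ x → x ∈ T) :
    (∀ (n : ℕ) (P : Ideal (MvPolynomial (Fin n) ℂ)), P.IsPrime →
      (∏ i : Fin n, (MvPolynomial.X i : MvPolynomial (Fin n) ℂ)) ∉ P → ZilberProp n P) ↔
    ∀ k : ℕ, UnitFiniteness T k := by
  constructor
  · intro h k
    obtain ⟨S, hS, hS'⟩ := CIT8.uc_of_dense (fun x => x ∈ T) k
      (CIT8.dense_of_zilber h (fun x => x ∈ T) k)
    exact ⟨S, hS, fun u hu => hS' u hu.1 hu.2.1 hu.2.2⟩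
  · intro h n P hP hX hU
    by_contra hne
    obtain ⟨R, P', k, z, a, jj, hP', hX', hz, hmem, hdim, hdet, hU', hne', hpts⟩ :=
      CIT8.main_reduction n P hP hX hU hne
    obtain ⟨S, hS, hS'⟩ := h k
    refine hne' (CIT8.trin_of_unit (fun x => x ∈ T) P' hP' hX' z a jj hz hmem hdim hdet
      ⟨S, hS, fun u h1 h2 h3 => hS' u ⟨h1, h2, h3⟩⟩ ?_)
    intro G hG
    obtain ⟨y, hy1, hy2, hy3, hy4⟩ := hpts G hG
    exact ⟨y, fun i => hT _ (CIT8.sol_algebraic z a hz y hy1 _), hy2, hy3, hy4⟩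

end Pool.Agent.Results.MP_c95b3b_ag.Universality
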